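import Pool.Agent.NPG.StmtsD

set_option autoImplicit false

open MeasureTheory Set Topology

namespace Pool.Agent.NPY.H60

open Pool.Agent.LSG Pool.Agent.NPY

theorem one {B : Type} [TopologicalSpace B] [NormalSpace B] [T1Space B] (u : B →₀ ℝ) (n : ℕ) :
    ∃ g : C(B, ℝ), ∀ b, u b ≠ 0 → u b * g b = n * |u b| := by
  classical
  have hf : (↑u.support : Set B).Finite := u.support.finite_toSet
  have hF : Finite ↥(↑u.support : Set B) := hf.to_subtype
  obtain ⟨g, hg⟩ := ContinuousMap.exists_restrict_eq (Y := ℝ) hf.isClosed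
    (⟨fun b : ↥(↑u.support : Set B) => if 0 ≤ u b.1 then (n : ℝ) else -n,
      continuous_of_discreteTopology⟩ : C(↥(↑u.support : Set B), ℝ))
  refine ⟨g, fun b hb => ?_⟩
  have hb' : b ∈ (↑u.support : Set B) := by simpa using hb
  have h1 := DFunLike.congr_fun hg ⟨b, hb'⟩
  have h2 : g b = if 0 ≤ u b then (n : ℝ) else -n := h1
  rw [h2]
  split_ifs with h3
  · rw [abs_of_nonneg h3, mul_comm]
  · rw [abs_of_neg (not_le.1 h3)]
    ring

theorem funR : FunStmt := by
  classical
  intro G H R hR k B I u hu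
  have i1 : SecondCountableTopology G :=
    TopologicalSpace.Subtype.secondCountableTopology (G : Set K)
  have i2 : SecondCountableTopology B := inferInstance
  have h1 : ∀ n, ∃ g : C(B, ℝ), ∀ b, u n b ≠ 0 → u n b * g b = n * |u n b| :=
    fun n => one (u n) n
  choose gg hgg using h1
  have h2 : ∀ b : B, ∃ n, (b.1.1 : K) ∈ R n := fun b => hR.cover _ b.1.1.2
  choose N hN using h2
  have huniq : ∀ (b : B) (n : ℕ), (b.1.1 : K) ∈ R n → N b = n := by
    intro b n hn
    by_contra hne
    exact (Set.disjoint_left.1 (hR.disj _ _ hne)) (hN b) hn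
  have hc : Continuous (fun b : B => gg (N b) b) := by
    rw [continuous_iff_continuousAt]
    intro b
    have h3 : ContinuousAt (gg (N b)) b := (gg (N b)).continuous.continuousAt
    refine h3.congr ?_
    have h4 : Continuous (fun b : B => (b.1.1 : K)) :=
      continuous_subtype_val.comp (continuous_fst.comp continuous_subtype_val)
    have h5 : {b' : B | (b'.1.1 : K) ∈ R (N b)} ∈ 𝓝 b :=
      ((hR.clopen (N b)).isOpen.preimage h4).mem_nhds (hN b)
    filter_upwards [h5] with b' hb'
    rw [huniq b' _ hb']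
  refine ⟨⟨_, hc⟩, fun n hn => ?_⟩
  show ((u n).sum fun b t => t * gg (N b) b) = n * ((u n).sum fun _ t => |t|)
  unfold Finsupp.sum
  rw [Finset.mul_sum]
  refine Finset.sum_congr rfl fun b hb => ?_
  have hb' : u n b ≠ 0 := Finsupp.mem_support_iff.1 hb
  show u n b * gg (N b) b = n * |u n b|
  rw [huniq b n (hu n hn b hb')]
  exact hgg n b hb'

end Pool.Agent.NPY.H60
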